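import Pool.Agent.helper1.SF.SpecA

/-!
Project SF, module GJR: the root.
-/

set_option autoImplicit false

namespace SF

open Pool.Agent.helper72.Sq MeasureTheory Set

theorem GJR_int (a : ℤ) (p : ℤ) (x : ℝ) (hx : 5 * x = a + 1 / 2) : (1 / 2 : ℝ) ≤ |p - 5 * x| := by
  rw [hx]
  rcases le_or_gt p a with h | h
  · have h1 : (p : ℝ) ≤ a := by exact_mod_cast h
    rw [abs_of_nonpos (by linarith)]
    linarith
  · have h1 : (a : ℝ) + 1 ≤ p := by exact_mod_cast h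
    rw [abs_of_nonneg (by linarith)]
    linarith

theorem GJR_a : (5 : ℝ) * (17 / 10) = (8 : ℤ) + 1 / 2 := by norm_num

theorem GJR_b : (5 : ℝ) * (3 / 2) = (7 : ℤ) + 1 / 2 := by norm_num

theorem GJR_div {x d r : ℝ} (hx : 0 ≤ x) (hr : 0 < r) (hd : d = √(1 / 2)) :
    x / d / r ≤ 2 * x / r := by
  have h1 : (1 / 2 : ℝ) ≤ d := by
    rw [hd]
    apply Real.le_sqrt_of_sq_le
    norm_num
  have h2 : 0 < d := by linarith
  apply div_le_div_of_nonneg_right _ hr.le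
  rw [div_le_iff₀ h2]
  nlinarith

theorem GJR (hJ : PKJ_stmt) (hE : PKE_stmt) (hF : PKF_stmt) : GJR_stmt := by
  obtain ⟨C₁, hC₁, hJ⟩ := hJ
  obtain ⟨C₂, hC₂, hE⟩ := hE
  obtain ⟨C₃, hC₃, hF⟩ := hF
  refine ⟨1000 * C₁ + 100 * C₂ + 100 * C₃, by positivity, ?_⟩
  intro k hk
  have hk2 : (4096 : ℝ) ≤ 2 ^ k := by
    calc (4096 : ℝ) = 2 ^ 12 := by norm_num
      _ ≤ 2 ^ k := pow_le_pow_right₀ (by norm_num) hk
  have hr0 : 0 < √((2 : ℝ) ^ k) := Real.sqrt_pos.mpr (by positivity)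
  have hr1 : 1 ≤ √((2 : ℝ) ^ k) := by
    rw [Real.one_le_sqrt]
    linarith
  have hrr0 : 0 < √(√((2 : ℝ) ^ k)) := Real.sqrt_pos.mpr hr0
  have hrr : √(√((2 : ℝ) ^ k)) ≤ √((2 : ℝ) ^ k) := by
    rw [Real.sqrt_le_left hr0.le]
    nlinarith
  have hinv : ∀ x : ℝ, 0 ≤ x → x / √((2 : ℝ) ^ k) ≤ x / √(√((2 : ℝ) ^ k)) := fun x hx =>
    div_le_div_of_nonneg_left hx hrr0 hrr
  -- no resonance
  have na : ∀ p : ℤ, (1 / 2 : ℝ) ≤ |(p : ℝ) - 5 * (17 / 10)| := fun p => GJR_int 8 p _ GJR_a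
  have nb : ∀ p : ℤ, (1 / 2 : ℝ) ≤ |(p : ℝ) - 5 * (3 / 2)| := fun p => GJR_int 7 p _ GJR_b
  have j1 := hJ k 1 (17 / 10) (1 / 2) (by norm_num) (by norm_num) (by norm_num) (by norm_num)
    (fun p1 _ => Or.inl (na p1)) (by linarith)
  have j2 := hJ k (17 / 10) (3 / 2) (1 / 2) (by norm_num) (by norm_num) (by norm_num) (by norm_num)
    (fun p1 _ => Or.inl (nb p1)) (by linarith)
  have j3 := hJ k 1 (3 / 2) (1 / 2) (by norm_num) (by norm_num) (by norm_num) (by norm_num)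
    (fun p1 _ => Or.inl (nb p1)) (by linarith)
  have f1 := hF k (17 / 10) (3 / 2) (1 / 2) (by norm_num) (by norm_num) (by norm_num) (by norm_num)
    (fun p => ⟨na p, nb p⟩) (by linarith)
  have e1 := hE k (17 / 10) (3 / 2) 1 (by norm_num) (by norm_num) (by norm_num) (by linarith)
  have e2 := hE k (3 / 2) 1 (17 / 10) (by norm_num) (by norm_num) (by norm_num) (by linarith)
  -- the bounds
  have b1 : C₁ * (1 + 17 / 10 : ℝ) ^ 4 / √(1 / 2) / √(√((2 : ℝ) ^ k)) ≤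
      (300 * C₁) / √(√((2 : ℝ) ^ k)) := by
    refine le_trans (GJR_div (by positivity) hrr0 rfl) ?_
    apply div_le_div_of_nonneg_right _ hrr0.le
    nlinarith
  have b2 : C₁ * (17 / 10 + 3 / 2 : ℝ) ^ 4 / √(1 / 2) / √(√((2 : ℝ) ^ k)) ≤
      (300 * C₁) / √(√((2 : ℝ) ^ k)) := by
    refine le_trans (GJR_div (by positivity) hrr0 rfl) ?_
    apply div_le_div_of_nonneg_right _ hrr0.le
    nlinarith
  have b3 : C₁ * (1 + 3 / 2 : ℝ) ^ 4 / √(1 / 2) / √(√((2 : ℝ) ^ k)) ≤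
      (300 * C₁) / √(√((2 : ℝ) ^ k)) := by
    refine le_trans (GJR_div (by positivity) hrr0 rfl) ?_
    apply div_le_div_of_nonneg_right _ hrr0.le
    nlinarith
  have b4 : C₃ * (1 + 17 / 10 + 3 / 2 : ℝ) ^ 2 / √(1 / 2) / √((2 : ℝ) ^ k) ≤
      (50 * C₃) / √(√((2 : ℝ) ^ k)) := by
    refine le_trans (GJR_div (by positivity) hr0 rfl) ?_
    refine le_trans (hinv _ (by positivity)) ?_
    apply div_le_div_of_nonneg_right _ hrr0.le
    nlinarith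
  have b5 : C₂ * (17 / 10 + 3 / 2 + 1 : ℝ) ^ 2 / √((2 : ℝ) ^ k) ≤
      (20 * C₂) / √(√((2 : ℝ) ^ k)) := by
    refine le_trans (hinv _ (by positivity)) ?_
    apply div_le_div_of_nonneg_right _ hrr0.le
    nlinarith
  have b6 : C₂ * (3 / 2 + 1 + 17 / 10 : ℝ) ^ 2 / √((2 : ℝ) ^ k) ≤
      (20 * C₂) / √(√((2 : ℝ) ^ k)) := by
    refine le_trans (hinv _ (by positivity)) ?_
    apply div_le_div_of_nonneg_right _ hrr0.le
    nlinarith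
  have hsum : (1000 * C₁ + 100 * C₂ + 100 * C₃) / √(√((2 : ℝ) ^ k)) =
      (300 * C₁) / √(√((2 : ℝ) ^ k)) + (300 * C₁) / √(√((2 : ℝ) ^ k)) +
      (300 * C₁) / √(√((2 : ℝ) ^ k)) + (50 * C₃) / √(√((2 : ℝ) ^ k)) +
      (20 * C₂) / √(√((2 : ℝ) ^ k)) + (20 * C₂) / √(√((2 : ℝ) ^ k)) +
      (100 * C₁ + 60 * C₂ + 50 * C₃) / √(√((2 : ℝ) ^ k)) := by
    ring
  have hlast : 0 ≤ (100 * C₁ + 60 * C₂ + 50 * C₃) / √(√((2 : ℝ) ^ k)) := by positivity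
  rw [hsum]
  rw [abs_le] at *
  obtain ⟨j1a, j1b⟩ := j1
  obtain ⟨j2a, j2b⟩ := j2
  obtain ⟨j3a, j3b⟩ := j3
  obtain ⟨f1a, f1b⟩ := f1
  obtain ⟨e1a, e1b⟩ := e1
  obtain ⟨e2a, e2b⟩ := e2
  constructor
  · linarith
  · linarith

end SF
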