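import Pool.Agent.helper68.SF.SpecW

/-!
Project SF, module RJ: change of the base point in the sum.
-/

set_option autoImplicit false

namespace SF

theorem RJ_fin (x0 x1 : ℝ) :
    {m : ℤ | Real.sign (x1 + m / 5) ≠ Real.sign (x0 + m / 5)}.Finite := by
  refine (Set.finite_Icc (⌊-5 * (|x0| + |x1|)⌋ : ℤ) ⌈5 * (|x0| + |x1|)⌉).subset ?_
  intro m hm
  by_contra h
  apply hm
  have a0 := abs_nonneg x0
  have a1 := abs_nonneg x1
  have b0 := neg_abs_le x0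
  have b1 := neg_abs_le x1
  have c0 := le_abs_self x0
  have c1 := le_abs_self x1
  rw [Set.mem_Icc, not_and_or, not_le, not_le] at h
  rcases h with h | h
  · have h1 : (m : ℝ) < (⌊-5 * (|x0| + |x1|)⌋ : ℤ) := by exact_mod_cast h
    have h2 := Int.floor_le (-5 * (|x0| + |x1|))
    rw [Real.sign_of_neg (by linarith), Real.sign_of_neg (by linarith)]
  · have h1 : ((⌈5 * (|x0| + |x1|)⌉ : ℤ) : ℝ) < m := by exact_mod_cast h
    have h2 := Int.le_ceil (5 * (|x0| + |x1|))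
    rw [Real.sign_of_pos (by linarith), Real.sign_of_pos (by linarith)]

theorem RJ_chi (k : ℤ) : chi (k * 5 + 0) = 0 ∧ chi (k * 5 + 1) = 1 ∧ chi (k * 5 + 2) = -1 ∧
    chi (k * 5 + 3) = -1 ∧ chi (k * 5 + 4) = 1 := by
  have h0 : (k * 5 + 0) % 5 = 0 := by omega
  have h1 : (k * 5 + 1) % 5 = 1 := by omega
  have h2 : (k * 5 + 2) % 5 = 2 := by omega
  have h3 : (k * 5 + 3) % 5 = 3 := by omega
  have h4 : (k * 5 + 4) % 5 = 4 := by omega
  unfold chi
  rw [h0, h1, h2, h3, h4]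
  norm_num

theorem RJ (hRA : RA_stmt) : RJ_stmt := by
  intro g hg s x y x0 x1 hy
  have hfin := RJ_fin x0 x1
  refine ⟨hfin, ?_⟩
  obtain ⟨-, -, h0⟩ := hRA g hg x0
  obtain ⟨hs0, -⟩ := h0 s x y hy
  obtain ⟨-, -, h1⟩ := hRA g hg x1
  obtain ⟨hs1, -⟩ := h1 s x y hy
  obtain ⟨f, hf⟩ : ∃ f : ℝ → ℝ, ∀ t, f t = 1 / 2 * (Real.sign (x1 + t) - Real.sign (x0 + t)) *
    b1 g s (x + t) y := ⟨_, fun t => rfl⟩
  obtain ⟨h, hh⟩ : ∃ h : ℤ → ℝ, ∀ m, h m = chi m * f (m / 5) := ⟨_, fun m => rfl⟩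
  have hgoal : (fun m : ℤ => chi m * (1 / 2 * (Real.sign (x1 + m / 5) - Real.sign (x0 + m / 5)) *
      b1 g s (x + m / 5) y)) = h := by
    funext m
    rw [hh, hf]
  rw [hgoal]
  have hsupp : (Function.support h).Finite := by
    refine hfin.subset ?_
    intro m hm
    intro hc
    apply hm
    rw [hh, hf, hc, sub_self]
    ring
  have hts : ∑' m, h m = ∑ᶠ m, h m := tsum_eq_finsum hsupp
  rw [← hts]
  unfold RR
  rw [← hs1.tsum_sub hs0]
  have hsum : Summable h := summable_of_hasFiniteSupport hsupp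
  have hsum2 : Summable (fun c : ℤ × Fin 5 => h ((Int.divModEquiv 5).symm c)) :=
    (Int.divModEquiv 5).symm.summable_iff.mpr hsum
  rw [← (Int.divModEquiv 5).symm.tsum_eq h, hsum2.tsum_prod]
  refine tsum_congr fun k => ?_
  rw [tsum_fintype, Fin.sum_univ_five]
  have e : ∀ j : Fin 5, (Int.divModEquiv 5).symm (k, j) = k * 5 + (j : ℕ) := fun j => rfl
  rw [e, e, e, e, e]
  obtain ⟨c0, c1, c2, c3, c4⟩ := RJ_chi k
  have d0 : h (k * 5 + ((0 : Fin 5) : ℕ)) = 0 := by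
    rw [hh]
    have : (k * 5 + ((0 : Fin 5) : ℕ) : ℤ) = k * 5 + 0 := rfl
    rw [this, c0, zero_mul]
  have d1 : h (k * 5 + ((1 : Fin 5) : ℕ)) = f (k + 1 / 5) := by
    rw [hh]
    have : (k * 5 + ((1 : Fin 5) : ℕ) : ℤ) = k * 5 + 1 := rfl
    rw [this, c1, one_mul]
    congr 1
    push_cast
    ring
  have d2 : h (k * 5 + ((2 : Fin 5) : ℕ)) = -f (k + 2 / 5) := by
    rw [hh]
    have : (k * 5 + ((2 : Fin 5) : ℕ) : ℤ) = k * 5 + 2 := rfl
    rw [this, c2, neg_one_mul]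
    congr 2
    push_cast
    ring
  have d3 : h (k * 5 + ((3 : Fin 5) : ℕ)) = -f (k + 3 / 5) := by
    rw [hh]
    have : (k * 5 + ((3 : Fin 5) : ℕ) : ℤ) = k * 5 + 3 := rfl
    rw [this, c3, neg_one_mul]
    congr 2
    push_cast
    ring
  have d4 : h (k * 5 + ((4 : Fin 5) : ℕ)) = f (k + 4 / 5) := by
    rw [hh]
    have : (k * 5 + ((4 : Fin 5) : ℕ) : ℤ) = k * 5 + 4 := rfl
    rw [this, c4, one_mul]
    congr 1
    push_cast
    ring
  rw [d0, d1, d2, d3, d4, hf, hf, hf, hf]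
  unfold Bk c5
  simp only [add_assoc]
  ring

end SF
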